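import Pool.Agent.Helper68.Dom.Goals

/-!
# TOPM: the complete graph on `n + 5` vertices is minor-minimal
-/

set_option autoImplicit false

namespace NApexGraphs.Dom.Helper51

open SimpleGraph NApexGraphs NApexGraphs.Dom

theorem not_nApex (n : ℕ) : ¬ NApex n (⊤ : SimpleGraph (Fin (n + 5))) := by
  classical
  rintro ⟨X, hX, hP⟩
  let R : Finset (Fin (n + 5)) := Finset.univ \ X
  have hR : 5 ≤ R.card := by
    have h1 : R.card = Fintype.card (Fin (n + 5)) - X.card := by
      rw [Finset.card_sdiff_of_subset (Finset.subset_univ _), Finset.card_univ]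
    rw [Fintype.card_fin] at h1
    omega
  obtain ⟨S, hS, hc⟩ := Finset.exists_subset_card_eq hR
  let e : Fin 5 ≃ S := (finCongr hc.symm).trans S.equivFin.symm
  have hRX : ∀ v ∈ R, v ∈ ((X : Set (Fin (n + 5)))ᶜ) := fun v hv => (Finset.mem_sdiff.1 hv).2
  let f : Fin 5 → ((X : Set (Fin (n + 5)))ᶜ : Set (Fin (n + 5))) := fun i =>
    ⟨(e i).1, hRX _ (hS (e i).2)⟩
  have hf : Function.Injective f := by
    intro i j hij
    have := congrArg Subtype.val hij
    exact e.injective (Subtype.ext this)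
  refine hP.1 (isMinor_of_injective f hf ?_)
  intro i j hij
  have h1 : f i ≠ f j := fun h => hij.ne (hf h)
  exact fun h => h1 (Subtype.ext h)

theorem kills {V : Type} {G : SimpleGraph V} {x y : V} {X : Finset V} (Z : Finset V)
    (hX : ∀ v, v ∉ X → v ∈ Z) (hZ : Z.card ≤ 5) (hx : x ∈ Z) (hy : y ∈ Z) (hxy : x ≠ y) :
    EdgeKills K5 G x y (X : Set V) ∧ EdgeKills K33 G x y (X : Set V) := by
  classical
  have hsub : ∀ S : Set V, S ⊆ (X : Set V)ᶜ → S ⊆ (Z : Set V) := fun S hS v hv => hX v (hS hv)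
  have nxy : ¬ (G.deleteEdges {s(x, y)}).Adj x y := by
    rw [SimpleGraph.deleteEdges_adj]
    exact fun h => h.2 rfl
  have hC : Z.card ≤ Fintype.card (Fin 5) := by simpa using hZ
  have six : ∀ G' : SimpleGraph V, ∀ B : Fin 3 ⊕ Fin 3 → Set V, IsModel K33 G' B →
      (∀ k, B k ⊆ (X : Set V)ᶜ) → False := by
    intro G' B hB hs
    have hB' := (isModel_iff _ _ _).1 hB
    have h1 := card_meet_le hB'.2.1 Z Finset.univ (fun k _ => by
      obtain ⟨v, hv⟩ := (hB'.1 k).1
      exact ⟨v, hsub _ (hs k) hv, hv⟩)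
    rw [Finset.card_univ, Fintype.card_sum, Fintype.card_fin] at h1
    omega
  refine ⟨⟨?_, ?_⟩, ⟨?_, ?_⟩⟩
  · intro B hB hs
    have hB' := (isModel_iff _ _ _).1 hB
    have hBZ : ∀ k, B k ⊆ (Z : Set V) := fun k => hsub _ (hs k)
    have hm : ∀ k, ∃ v ∈ Z, v ∈ B k := by
      intro k
      obtain ⟨v, hv⟩ := (hB'.1 k).1
      exact ⟨v, hBZ k hv, hv⟩
    obtain ⟨kx, hkx⟩ := meet_all hB'.2.1 hC hm hx
    obtain ⟨ky, hky⟩ := meet_all hB'.2.1 hC hm hy
    have hne : kx ≠ ky := by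
      rintro rfl
      exact hxy (meet_unique hB'.2.1 hC hm hx hy hkx hky)
    obtain ⟨a, ha, b, hb, hab⟩ := hB'.2.2 kx ky hne
    have e1 : a = x := meet_unique hB'.2.1 hC hm (hBZ kx ha) hx ha hkx
    have e2 : b = y := meet_unique hB'.2.1 hC hm (hBZ ky hb) hy hb hky
    rw [e1, e2] at hab
    exact nxy hab
  · intro B hB hs k hxk hyk
    have hB' := (isModel_iff _ _ _).1 hB
    have hBZ : ∀ k, B k ⊆ (Z : Set V) := fun k => hsub _ (hs k)
    have hm : ∀ k, ∃ v ∈ Z, v ∈ B k := by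
      intro k
      obtain ⟨v, hv⟩ := (hB'.1 k).1
      exact ⟨v, hBZ k hv, hv⟩
    exact hxy (meet_unique hB'.2.1 hC hm hx hy hxk hyk)
  · intro B hB hs
    exact six _ B hB hs
  · intro B hB hs _ _ _
    exact six _ B hB hs

theorem gTOPM : Goals.TOPM := by
  classical
  intro n
  refine minMinimal_of_edges _ n (not_nApex n) ?_ ?_
  · intro v
    obtain ⟨w, hw⟩ := exists_ne v
    exact ⟨w, hw.symm⟩
  · intro x y hxy
    have hne : x ≠ y := hxy
    obtain ⟨Z, h1, _, h3⟩ := Finset.exists_subsuperset_card_eq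
      (s := ({x, y} : Finset (Fin (n + 5)))) (t := Finset.univ) (n := 5)
      (Finset.subset_univ _) (by rw [Finset.card_pair hne]; omega)
      (by rw [Finset.card_univ, Fintype.card_fin]; omega)
    refine ⟨Finset.univ \ Z, ?_, ?_⟩
    · rw [Finset.card_sdiff_of_subset (Finset.subset_univ _), Finset.card_univ, h3,
        Fintype.card_fin]
      omega
    · refine kills Z (fun v hv => ?_) h3.le (h1 (by simp)) (h1 (by simp)) hne
      by_contra h
      exact hv (Finset.mem_sdiff.2 ⟨Finset.mem_univ _, h⟩)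

end NApexGraphs.Dom.Helper51
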